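import Pool.Agent.N728.QU.Def
import Pool.Agent.N87.QH.AP2

set_option autoImplicit false

/-! Project QU (helper728), stage A for the primes, uniformly in the constant term: the assembly (helper300), after
`Pool.Agent.N87.QH.AP2` (helper87) and `Pool.Agent.N531.QG.AP` (helper531). -/

namespace Pool.Agent.N300.QU

open Finset Pool.Agent.N728.QL Pool.Agent.N728.QG Pool.Agent.N756.QL Pool.Agent.N531.QG Filter Topology
open Pool.Agent.N728.QU Pool.Agent.N87.QH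

noncomputable section

lemma natAbs_sg {σ : ℤ} (hσ : σ = 1 ∨ σ = -1) (c : ℤ) : (σ * c).natAbs = c.natAbs := by
  rcases hσ with rfl | rfl
  · rw [one_mul]
  · rw [neg_one_mul, Int.natAbs_neg]

lemma tame_sg {s0 : ℕ} {σ : ℤ} (hσ : σ = 1 ∨ σ = -1) {c : ℤ} (h : Tame s0 c) : Tame s0 (σ * c) := by
  unfold Tame at h ⊢
  rw [natAbs_sg hσ]
  refine ⟨?_, h.2⟩
  have h1 : σ ≠ 0 := by rcases hσ with rfl | rfl <;> norm_num
  exact mul_ne_zero h1 h.1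

lemma deg_aX {a : ℤ} (ha : a = 1 ∨ a = -1) : (Polynomial.C a * Polynomial.X : Polynomial ℤ).natDegree = 1 := by
  have h1 : a ≠ 0 := by rcases ha with rfl | rfl <;> norm_num
  exact Polynomial.natDegree_C_mul_X a h1

lemma eval_aX (a x : ℤ) : (Polynomial.C a * Polynomial.X : Polynomial ℤ).eval x = a * x := by
  simp

theorem t_AP2u (hCORE : S_CORE) (hDIA : S_DIA) (hEEB : S_EEBu) (hU0 : S_U0u) (hU1 : ∀ s0, S_U1u s0)
    (hRNG : S_RNG) (hOFF : ∀ (s0 : ℕ) (a : ℤ), a = 1 ∨ a = -1 → S_OFFu s0 a)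
    (hSP : ∀ G : Polynomial ℤ, 1 ≤ G.natDegree → Pool.Agent.N728.QG.S_SP G) (hMER : S_MER)
    (s0 : ℕ) (a : ℤ) (ha : a = 1 ∨ a = -1) : S_AP2u s0 a := by
  intro K ε hK hε
  have hG1 : (Polynomial.C a * Polynomial.X : Polynomial ℤ).natDegree = 1 := deg_aX ha
  have hev : ∀ x : ℤ, (Polynomial.C a * Polynomial.X : Polynomial ℤ).eval x = a * x := eval_aX a
  generalize (Polynomial.C a * Polynomial.X : Polynomial ℤ) = G at hG1 hev ⊢
  have hG : 1 ≤ G.natDegree := hG1.ge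
  set e := G.natDegree with he
  obtain ⟨κ, hκ, hEE⟩ := hEEB
  obtain ⟨CM, hCM, hM1, -⟩ := hMER
  obtain ⟨Ca, hCa, ka, Ba, hUa⟩ := hU0 (8 * (e + 1)) (by omega)
  obtain ⟨Cb, hCb, kb, Bb, hUb⟩ := hU1 s0 (8 * (e + 1)) (by omega)
  obtain ⟨CU, hCU, hCUa, hCUb⟩ : ∃ CU : ℝ, 0 < CU ∧ Ca ≤ CU ∧ Cb ≤ CU :=
    ⟨Ca + Cb, by linarith, by linarith, by linarith⟩
  obtain ⟨kU, hkUa, hkUb⟩ : ∃ kU : ℕ, ka ≤ kU ∧ kb ≤ kU := ⟨ka + kb, by omega, by omega⟩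
  obtain ⟨C1, hC1, k1, B1, hC⟩ := hCORE (CU + CU) kU (e + 1) K (by linarith) (by omega) hK
  obtain ⟨C2, hC2, k2, B2, hD⟩ := hDIA (CU + CU) kU (e + 1) K (by linarith) (by omega) hK
  obtain ⟨k3, B3, hR⟩ := hRNG (e + 1) K (by omega) hK
  obtain ⟨KO, hKO, hO⟩ := hOFF s0 a ha
  have hSPG := hSP G hG
  set GG : ℝ := C1 * (C2 + 1) with hGG
  have hG0 : 0 < GG := by positivity
  obtain ⟨k, hk00, hk2, q1, q2, q3⟩ := choose_k KO (kU + k1 + k2 + k3 + KO) hKO (4 * K * CM ^ 4) GG κ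
    (C1 / 8) ε hε
  have hkU : kU ≤ k := by omega
  have hk1 : k1 ≤ k := by omega
  have hk2' : k2 ≤ k := by omega
  have hk3 : k3 ≤ k := by omega
  have hkO : KO ≤ k := by omega
  have hkr : (2 : ℝ) ≤ k := by exact_mod_cast hk2
  have hk0 : (0 : ℝ) < k := by linarith
  have hKr : (1 : ℝ) ≤ K := by exact_mod_cast hK
  obtain ⟨w, hw⟩ : ∃ w : ℕ, w = k ^ 2 := ⟨_, rfl⟩
  have hkw : k ≤ w := by
    rw [hw]
    exact Nat.le_self_pow (by norm_num) k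
  have hw4 : 4 ≤ w := by
    rw [hw]
    calc 4 = 2 ^ 2 := by norm_num
      _ ≤ k ^ 2 := Nat.pow_le_pow_left hk2 2
  obtain ⟨ρ, hρ⟩ : ∃ ρ : ℝ, ρ = 1 + 1 / (k : ℝ) ^ 2 := ⟨_, rfl⟩
  have hik : 0 < 1 / (k : ℝ) ^ 2 := by positivity
  have hik2 : 1 / (k : ℝ) ^ 2 ≤ 1 := by
    rw [div_le_one (by positivity)]
    exact one_le_pow₀ (by linarith)
  have hρ1 : 1 < ρ := by rw [hρ]; linarith
  have hρ2 : ρ ≤ 2 := by rw [hρ]; linarith
  obtain ⟨y, hy⟩ : ∃ y : ℕ, y = ⌈Real.exp ((k : ℝ) ^ 60)⌉₊ := ⟨_, rfl⟩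
  have hyl : Real.exp ((k : ℝ) ^ 60) ≤ y := by
    rw [hy]
    exact Nat.le_ceil _
  have hy0 : (0 : ℝ) < y := lt_of_lt_of_le (Real.exp_pos _) hyl
  have hk60 : (1 : ℝ) ≤ (k : ℝ) ^ 60 := one_le_pow₀ (by linarith)
  obtain ⟨L, hL⟩ : ∃ L : ℝ, L = Real.log y := ⟨_, rfl⟩
  have hL1 : (k : ℝ) ^ 60 ≤ L := by
    rw [hL, Real.le_log_iff_exp_le hy0]
    exact hyl
  have hL2 : L ≤ 2 * (k : ℝ) ^ 60 := by
    rw [hL, ← Real.log_exp (2 * (k : ℝ) ^ 60)]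
    apply Real.log_le_log hy0
    have h1 : (y : ℝ) < Real.exp ((k : ℝ) ^ 60) + 1 := by
      rw [hy]
      exact Nat.ceil_lt_add_one (Real.exp_pos _).le
    have h2 : (1 : ℝ) ≤ Real.exp ((k : ℝ) ^ 60) := Real.one_le_exp (by linarith)
    have h3 : (2 : ℝ) ≤ Real.exp ((k : ℝ) ^ 60) := by
      have := Real.add_one_le_exp ((k : ℝ) ^ 60)
      linarith
    calc (y : ℝ) ≤ Real.exp ((k : ℝ) ^ 60) + 1 := h1.le
      _ ≤ 2 * Real.exp ((k : ℝ) ^ 60) := by linarith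
      _ ≤ Real.exp ((k : ℝ) ^ 60) * Real.exp ((k : ℝ) ^ 60) :=
          mul_le_mul_of_nonneg_right h3 (Real.exp_pos _).le
      _ = Real.exp (2 * (k : ℝ) ^ 60) := by
          rw [← Real.exp_add]
          congr 1
          ring
  have hLone : 1 ≤ L := hk60.trans hL1
  have hwy : w ≤ y := by
    have h1 : (w : ℝ) ≤ y := by
      rw [hw]
      push_cast
      calc (k : ℝ) ^ 2 ≤ (k : ℝ) ^ 60 := pow_le_pow_right₀ (by linarith) (by norm_num)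
        _ ≤ Real.exp ((k : ℝ) ^ 60) := by
            have := Real.add_one_le_exp ((k : ℝ) ^ 60)
            linarith
        _ ≤ y := hyl
    exact_mod_cast h1
  obtain ⟨M0, hM01, hM0⟩ := choose_M0 (CB := C1) hk2 hLone
  -- the sieve product
  have hVp := VW_pos w y
  have hV : (VW w y)⁻¹ ≤ CM * L := by
    have h1 := (hM1 w y (by omega) hwy).2
    have h2 : (1 : ℝ) ≤ Real.log w := by
      have h3 : Real.log 4 ≤ Real.log w := Real.log_le_log (by norm_num) (by exact_mod_cast hw4)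
      have h4 : Real.log 4 = 2 * Real.log 2 := by
        rw [show (4 : ℝ) = 2 ^ 2 by norm_num, Real.log_pow]
        push_cast
        ring
      have h5 := Real.log_two_gt_d9
      linarith
    rw [← hL] at h1
    have h3 : L / Real.log w ≤ L := div_le_self (by linarith) h2
    exact h1.trans (mul_le_mul_of_nonneg_left h3 (by linarith))
  have hCML : 1 ≤ CM * L := one_le_mul_of_one_le_of_one_le hCM hLone
  have hV4 : (VW w y)⁻¹ ^ 4 ≤ (CM * L) ^ 4 := pow_le_pow_left₀ (by positivity) hV 4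
  obtain ⟨ε1, hε1⟩ : ∃ ε1 : ℝ, ε1 = 1 / (8 * K * (CM * L) ^ 4) := ⟨_, rfl⟩
  have hCML0 : 0 < CM * L := by linarith
  have hε1p : 0 < ε1 := by
    rw [hε1]
    positivity
  obtain ⟨δ, hδ⟩ : ∃ δ : ℝ, δ = KO * L ^ KO * (2 : ℝ) ^ (-((k : ℝ) / KO)) + ε1 := ⟨_, rfl⟩
  have hδ0 : 0 ≤ 2 * δ + 2 * ε1 := by
    rw [hδ]
    have : 0 ≤ KO * L ^ KO * (2 : ℝ) ^ (-((k : ℝ) / KO)) := by positivity
    linarith
  have hδ2 : (2 * δ + 2 * ε1) * (VW w y)⁻¹ ^ 4 * K ≤ 1 := by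
    have h1 : (2 * δ + 2 * ε1) * (VW w y)⁻¹ ^ 4 ≤ (2 * δ + 2 * ε1) * (CM * L) ^ 4 :=
      mul_le_mul_of_nonneg_left hV4 hδ0
    have h2 : (2 * δ + 2 * ε1) * (CM * L) ^ 4 * K =
        1 / 2 * ((KO : ℝ) * (4 * K * CM ^ 4) * L ^ (KO + 4) * (2 : ℝ) ^ (-((k : ℝ) / KO))) + 1 / 2 := by
      have h3 : 4 * ε1 * (CM * L) ^ 4 * K = 1 / 2 := by
        rw [hε1]
        field_simp
        norm_num
      rw [hδ]
      calc _ = 1 / 2 * ((KO : ℝ) * (4 * K * CM ^ 4) * L ^ (KO + 4) * (2 : ℝ) ^ (-((k : ℝ) / KO))) +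
            4 * ε1 * (CM * L) ^ 4 * K := by ring
        _ = _ := by rw [h3]
    have h4 : (KO : ℝ) * (4 * K * CM ^ 4) * L ^ (KO + 4) * (2 : ℝ) ^ (-((k : ℝ) / KO)) ≤ 1 := by
      refine le_trans ?_ q1
      have h5 : L ^ (KO + 4) ≤ (2 * (k : ℝ) ^ 60) ^ (KO + 4) := pow_le_pow_left₀ (by linarith) hL2 _
      exact mul_le_mul_of_nonneg_right (mul_le_mul_of_nonneg_left h5 (by positivity))
        (Real.rpow_nonneg (by norm_num) _)
    have h6 := mul_le_mul_of_nonneg_right h1 (by linarith : (0 : ℝ) ≤ K)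
    linarith
  -- `z'`
  obtain ⟨zO, hzO⟩ := hO k w y M0 (2 * K) hkO (by omega) hwy ε1 hε1p
  obtain ⟨z', hz'⟩ : ∃ z' : ℕ, z' = zO + y := ⟨_, rfl⟩
  obtain ⟨BO, hBO⟩ := hzO z' (by omega)
  have hy1 : 1 ≤ y := by omega
  have hPd : PP w y ∣ PP 0 z' := by
    unfold PP
    apply prod_dvd_prod_of_subset
    intro p hp
    rw [mem_filter, mem_Ioc] at hp ⊢
    exact ⟨⟨by omega, by omega⟩, hp.2⟩
  have hVz := VW_pos 0 z'
  -- the uniform `q0` and `η`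
  obtain ⟨q0, hq0, η, hη, BS, hBS⟩ := uniform3
    (((Icc 1 M0) ×ˢ ((Icc 1 M0) ×ˢ (Icc 1 M0))).filter (fun s : ℕ × ℕ × ℕ =>
      s.1 ∣ PP w y ∧ s.2.1 ∣ s.1 ∧ s.2.2 ∣ s.1 ∧ s.2.1 ≠ s.2.2))
    (fun s q0 η b => ∀ B : ℕ, b ≤ B →
      ∀ (q X Y H : ℕ) (F ψ : ℤ → ℝ), q0 ∣ q → 1 ≤ q → q ∣ H → 1 ≤ H →
      (H : ℝ) ≤ η * (X : ℝ) ^ G.natDegree → H ≤ B →
      B ≤ X ^ (G.natDegree + 2) → Y ≤ 2 * K * B → (∀ n, |ψ n| ≤ 1) →
      (∀ n, ψ (n + (PP 0 z' : ℕ)) = ψ n) →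
      (∀ x : ℕ, 1 ≤ x → x ≤ X → 0 ≤ (B : ℤ) + G.eval ((s.2.1 : ℤ) * x) ∧
        0 ≤ (B : ℤ) + G.eval ((s.2.2 : ℤ) * x) ∧
        5 * (B : ℤ) + G.eval ((s.2.1 : ℤ) * x) ≤ ((s.1 / s.2.1 : ℕ) : ℤ) * Y ∧
        5 * (B : ℤ) + G.eval ((s.2.2 : ℤ) * x) ≤ ((s.1 / s.2.2 : ℕ) : ℤ) * Y) →
      Adm5 F B → ZeroMean F q H →
      |∑ x ∈ Icc 1 X, ∑ t ∈ Icc 1 Y, rg w y x * rg w y t * ψ ((s.1 : ℤ) * x * t) *
        F (((s.1 / s.2.1 : ℕ) : ℤ) * t - G.eval ((s.2.1 : ℤ) * x)) *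
        F (((s.1 / s.2.2 : ℕ) : ℤ) * t - G.eval ((s.2.2 : ℤ) * x))| ≤
      ε1 * VW 0 z' * ((X : ℝ) * Y))
    (by
      intro s q q' η η' b b' h0 h1 h2 h3 B hB q'' X Y H F ψ g1 g2 g3 g4 g5 g6 g7 g8 g9 g10 g11 g12 g13
      exact h3 B (h2.trans hB) q'' X Y H F ψ (h0.trans g1) g2 g3 g4
        (g5.trans (mul_le_mul_of_nonneg_right h1 (by positivity))) g6 g7 g8 g9 g10 g11 g12 g13)
    (by
      rintro ⟨M, m, m'⟩ hs
      simp only [mem_filter, mem_product, mem_Icc] at hs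
      obtain ⟨⟨⟨hMa, hMb⟩, -⟩, hMP, hmM, hmM', hmm⟩ := hs
      exact hSPG (PP 0 z') w y M m m' (2 * K) (ε1 * VW 0 z') (by positivity) (PP_pos 0 z') hPd hMP
        hmM hmM' hmm)
  refine ⟨z' + q0 + 2, fun z hz => ?_⟩
  have hz2 : 2 ≤ z := by omega
  refine ⟨q0 * PP 0 z, Nat.mul_pos hq0 (PP_pos 0 z), dvd_mul_left _ _, ?_, ?_⟩
  · intro p hp hpq
    rcases (Nat.Prime.dvd_mul hp).1 hpq with h | h
    · have := Nat.le_of_dvd hq0 h
      omega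
    · exact (dvd_PP hp h).2
  have hM0r : (1 : ℝ) ≤ M0 := by exact_mod_cast hM01
  refine ⟨η / (4 * M0) ^ G.natDegree, by positivity, ?_⟩
  obtain ⟨BE, hBE⟩ := hEE k z hk2
  refine ⟨Ba + Bb + B1 + B2 + B3 + BO + BS + BE + 2 + ((4 * M0) ^ (G.natDegree + 2)) ^ (G.natDegree + 1) +
    M0 + K + M0 ^ k + y ^ k + z ^ k + ⌈Real.exp ((k : ℝ) ^ 2)⌉₊,
    fun B hB T H c σ F htame hcB hσ hT hTK hRge hqH hH1 hH2 hHB hF hZ => ?_⟩
  have hsc0 : σ * c ≠ 0 := (tame_sg hσ htame).1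
  have hscT : Tame s0 (σ * c) := tame_sg hσ htame
  have hscB : (σ * c).natAbs ≤ B ^ 3 := by rw [natAbs_sg hσ]; exact hcB
  have hG2 : G.natDegree = 1 := hG1
  replace hT : B ≤ T ^ (G.natDegree + 1) := by rw [hG2]; exact hT
  replace hTK : T ^ e ≤ K * B := by rw [hG1, pow_one]; exact hTK
  replace hH2 : (H : ℝ) ≤ η / (4 * M0) ^ G.natDegree * (T : ℝ) ^ G.natDegree := by
    rw [hG2] at hH2 ⊢
    rw [pow_one (T : ℝ)]
    exact hH2
  have p1 := Nat.zero_le (((4 * M0) ^ (G.natDegree + 2)) ^ (G.natDegree + 1))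
  have p2 := Nat.zero_le (M0 ^ k)
  have p3 := Nat.zero_le (y ^ k)
  have p4 := Nat.zero_le (z ^ k)
  have p5 := Nat.zero_le (⌈Real.exp ((k : ℝ) ^ 2)⌉₊)
  generalize hgE : ⌈Real.exp ((k : ℝ) ^ 2)⌉₊ = e1 at hB p5
  generalize hgM : ((4 * M0) ^ (G.natDegree + 2)) ^ (G.natDegree + 1) = e2 at hB p1
  generalize hgMk : M0 ^ k = e3 at hB p2
  generalize hgy : y ^ k = e4 at hB p3
  generalize hgz : z ^ k = e5 at hB p4
  have hB2 : 2 ≤ B := by omega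
  have hM16 : ((4 * M0) ^ (G.natDegree + 2)) ^ (G.natDegree + 1) ≤ B := by rw [hgM]; omega
  have hM0B : M0 ≤ B := by omega
  have hKB0 : K ≤ B := by omega
  have hMkB : M0 ^ k ≤ B := by rw [hgMk]; omega
  have hykB : y ^ k ≤ B := by rw [hgy]; omega
  have hzkB : z ^ k ≤ B := by rw [hgz]; omega
  have hEB : Real.exp ((k : ℝ) ^ 2) ≤ B := by
    refine (Nat.le_ceil _).trans ?_
    rw [hgE]
    exact_mod_cast (by omega : e1 ≤ B)
  have hOB := hBO B (by omega)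
  obtain ⟨z1, hz1a, hz1b⟩ := exists_root k B (by omega)
  obtain ⟨hz12, hEB1⟩ := hBE B (by omega) c σ hσ hcB z1 hz1a hz1b
  have hzz1 : z ≤ z1 := by
    have : z ^ k < (z1 + 1) ^ k := lt_of_le_of_lt hzkB hz1b
    have := lt_of_pow_lt_pow_left₀ k (Nat.zero_le _) this
    omega
  have hpk : ∀ n k' : ℕ, 1 ≤ n → k' ≤ k → n ^ k ≤ B → n ^ k' ≤ B := fun n k' h1 h2 h3 =>
    (Nat.pow_le_pow_right h1 h2).trans h3
  -- the weights
  have hW0 : U0b (CU + CU) kU B (8 * (e + 1)) (NN (σ * c) z z1) :=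
    U0b_add (U0b_mono hCUa hkUa (hUa B (by omega) (σ * c) hsc0 hscB z1 (by omega) (hpk z1 ka (by omega) (by omega) hz1a)))
      (U0b_mono hCUa hkUa (hUa B (by omega) (σ * c) hsc0 hscB z (by omega) (hpk z ka (by omega) (by omega) hzkB)))
  have hW1 : U1b (CU + CU) kU B (8 * (e + 1)) (NN (σ * c) z z1) :=
    U1b_add (U1b_mono hCUb hkUb (hUb B (by omega) (σ * c) hscT hscB z1 (by omega) (hpk z1 kb (by omega) (by omega) hz1a)))
      (U1b_mono hCUb hkUb (hUb B (by omega) (σ * c) hscT hscB z (by omega) (hpk z kb (by omega) (by omega) hzkB)))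
  have hBp : (0 : ℝ) < B := by exact_mod_cast (by omega : 0 < B)
  have hρB : 1 + 1 / Real.log B ≤ ρ := by
    rw [hρ]
    have h1 : (k : ℝ) ^ 2 ≤ Real.log B := by
      rw [Real.le_log_iff_exp_le hBp]
      exact hEB
    have h2 := one_div_le_one_div_of_le (by positivity) h1
    linarith
  have hT1 : 1 ≤ T := by
    by_contra h0
    have : T = 0 := by omega
    rw [this, zero_pow (by omega)] at hT
    omega
  have hTB : T ≤ B ^ 2 := by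
    calc T ≤ T ^ e := Nat.le_self_pow (by omega) T
      _ ≤ K * B := hTK
      _ ≤ B * B := Nat.mul_le_mul_right B hKB0
      _ = B ^ 2 := by ring
  have hTD : T ≤ B ^ (e + 1) := hTB.trans (Nat.pow_le_pow_right (by omega) (by omega))
  have hκ0 : 0 < κ := by linarith
  have hκk : 0 < κ * k := by positivity
  have hph1 : ∀ u v, |ph G T F u v| ≤ 1 := by
    intro u v
    unfold Pool.Agent.N531.QG.ph
    split_ifs
    · exact hF.1 _
    · rw [abs_zero]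
      exact zero_le_one
  have hph2 := ph_zero hRge hF
  have main := hC B (by omega) (NN (σ * c) z z1) (fun n => EPu σ c z B n / (κ * k)) (by
    intro n
    rw [abs_div, abs_of_pos hκk, div_le_iff₀ hκk]
    have := hEB1 n
    linarith) hW0 hW1 T w y M0 ρ (ph G T F) hT hTD (by omega) hwy (hpk y k1 hy1 hk1 hykB) hM01
    (hpk M0 k1 hM01 hk1 hMkB) hρB hρ2 hph1 hph2
  have hdia := hD B (by omega) (NN (σ * c) z z1) (NN_nonneg (σ * c) z z1) hW1 T w y M0 ρ hT hTD (by omega) hwy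
    (hpk y k2 hy1 hk2' hykB) hM01 (hpk M0 k2 hM01 hk2' hMkB) hρ1 hρ2
  have hTBn : 0 ≤ (T : ℝ) * B := by positivity
  have hOFFAt : ∀ z2 : ℕ, z' ≤ z2 → z2 ^ k ≤ B → OFFAt2 G (σ * c) δ z' z2 w y M0 (2 * K) B F := by
    intro z2 hz2a hz2b X Y M m m' h1 h2 h3 h4 h6 h7 h8 h9 h10
    have h6' : B ≤ X ^ 3 := by
      have h11 : G.natDegree = 1 := hG1
      rw [h11] at h6
      exact h6
    have := hOB z2 X Y M m m' (σ * c) F hscT hscB hz2a hz2b h1 h2 h3 h4 h6' h7 h8 h9 h10 hF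
    rw [← hL, ← hδ] at this
    simp only [hev]
    exact this
  have hSPAt : SPAt G (PP 0 z') (ε1 * VW 0 z') η w y M0 (2 * K) B H F := by
    intro X Y M m m' h1 h2 h3 h4 h5 h6 h7 h8 h9 ψ h10 h11
    have hMpos : 1 ≤ M := Nat.pos_of_dvd_of_pos h1 (PP_pos w y)
    exact hBS (M, m, m') (by
      simp only [mem_filter, mem_product, mem_Icc]
      exact ⟨⟨⟨hMpos, h2⟩, ⟨Nat.pos_of_dvd_of_pos h3 hMpos, (Nat.le_of_dvd hMpos h3).trans h2⟩,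
        ⟨Nat.pos_of_dvd_of_pos h4 hMpos, (Nat.le_of_dvd hMpos h4).trans h2⟩⟩, h1, h3, h4, h5⟩) B (by omega)
      (q0 * PP 0 z) X Y H F ψ (dvd_mul_right _ _) (Nat.mul_pos hq0 (PP_pos 0 z)) hqH hH1 h6 hHB h7 h8
      h10 h11 h9 hF hZ
  have A3 := dd_sum' (φ := ph G T F) hph1 (NN_nonneg (σ * c) z z1) (w := w) (y := y) (M0 := M0) (T := T)
    (Y := K * B) (ρ := ρ) (δ := 2 * δ + 2 * ε1) (Z := (T : ℝ) * (K * B)) hδ0 (by positivity) hdia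
    (by
      intro M hM hMM j hj m hm m' hm' hmm
      exact off_le2 (hOFFAt z1 (by omega) hz1a) (hOFFAt z (by omega) hzkB) hSPAt (by omega) hT hTB hM16
        hM0B hρ1 hρ2 hη hH2 hRge hδ0 hM hMM hj
        (hR B (by omega) T M0 M j ρ hT hTD (hpk M0 k3 hM01 hk3 hMkB)
          (Nat.pos_of_dvd_of_pos hM (PP_pos w y)) hMM hρ1 hρ2 hj) hm hm' hmm)
  have hSE : SE G K (EPu σ c z B) B T F = κ * k * ∑ u ∈ Icc 1 T, ∑ v ∈ Icc 1 (K * B),
      ph G T F u v * (EPu σ c z B (u * v) / (κ * k)) := by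
    unfold SE
    rw [mul_sum]
    refine sum_congr rfl fun u hu => ?_
    rw [mul_sum]
    refine sum_congr rfl fun v _ => ?_
    unfold Pool.Agent.N531.QG.ph
    rw [if_pos (mem_Icc.1 hu)]
    field_simp
  rw [hSE, abs_mul, abs_of_pos hκk]
  set SD := ∑ M ∈ (PP w y).divisors.filter (fun M => M ≤ M0), ∑ j ∈ Wn ρ M,
    DD (ph G T F) (NN (σ * c) z z1) w y ρ T (K * B) M j with hSD
  have A1' : 1 / (w : ℝ) + (ρ - 1) + Real.log y ^ C1 * Real.exp (-(Real.log M0 / (2 * Real.log y))) ≤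
      3 * (1 / (k : ℝ) ^ 2) := by
    rw [← hL, hρ, hw]
    push_cast
    linarith
  have A2' : (ρ - 1) ^ (-(1 / 2) : ℝ) * Real.log w ^ (3 / 5 : ℝ) * Real.log y ^ (-(1 / 12) : ℝ) ≤
      1 / (k : ℝ) ^ 3 := by
    have h1 := ek_num hk2 hL1
    rw [← hL, hρ, hw]
    exact h1
  have B3' : SD ≤ (C2 + 1) * ((T : ℝ) * B) := by
    refine A3.trans ?_
    have h1 : (2 * δ + 2 * ε1) * (VW w y)⁻¹ ^ 4 * ((T : ℝ) * (K * B)) ≤ 1 * ((T : ℝ) * B) := by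
      calc _ = ((2 * δ + 2 * ε1) * (VW w y)⁻¹ ^ 4 * K) * ((T : ℝ) * B) := by ring
        _ ≤ _ := mul_le_mul_of_nonneg_right hδ2 hTBn
    linarith
  have B4 : √(C1 * ((T : ℝ) * B) *
      ((ρ - 1) ^ (-(1 / 2) : ℝ) * Real.log w ^ (3 / 5 : ℝ) * Real.log y ^ (-(1 / 12) : ℝ))) * √SD ≤
      √(GG / (k : ℝ) ^ 3) * ((B : ℝ) * T) := by
    calc _ ≤ √(C1 * ((T : ℝ) * B) * (1 / (k : ℝ) ^ 3)) * √((C2 + 1) * ((T : ℝ) * B)) :=
          mul_le_mul (Real.sqrt_le_sqrt (mul_le_mul_of_nonneg_left A2' (by positivity)))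
            (Real.sqrt_le_sqrt B3') (Real.sqrt_nonneg _) (Real.sqrt_nonneg _)
      _ = √(GG / (k : ℝ) ^ 3 * ((B : ℝ) * T) ^ 2) := by
          rw [← Real.sqrt_mul (by positivity)]
          congr 1
          rw [hGG]
          ring
      _ = √(GG / (k : ℝ) ^ 3) * ((B : ℝ) * T) := by
          rw [Real.sqrt_mul (by positivity), Real.sqrt_sq (by positivity)]
  have B5 : (k : ℝ) * √(GG / (k : ℝ) ^ 3) = √(GG / k) := by
    have h1 : GG / (k : ℝ) = (k : ℝ) ^ 2 * (GG / (k : ℝ) ^ 3) := by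
      field_simp
    rw [h1, Real.sqrt_mul (by positivity), Real.sqrt_sq hk0.le]
  have B6 : C1 * ((T : ℝ) * B) *
      (1 / (w : ℝ) + (ρ - 1) + Real.log y ^ C1 * Real.exp (-(Real.log M0 / (2 * Real.log y)))) ≤
      3 * C1 / (k : ℝ) ^ 2 * ((B : ℝ) * T) := by
    calc _ ≤ C1 * ((T : ℝ) * B) * (3 * (1 / (k : ℝ) ^ 2)) :=
          mul_le_mul_of_nonneg_left A1' (by positivity)
      _ = _ := by ring
  calc _ ≤ κ * k * (3 * C1 / (k : ℝ) ^ 2 * ((B : ℝ) * T) + √(GG / (k : ℝ) ^ 3) * ((B : ℝ) * T)) :=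
        mul_le_mul_of_nonneg_left (main.trans (add_le_add B6 B4)) hκk.le
    _ = (24 * κ * (C1 / 8) / k + κ * ((k : ℝ) * √(GG / (k : ℝ) ^ 3))) * ((B : ℝ) * T) := by
        field_simp
        ring
    _ ≤ ε * ((B : ℝ) * T) := by
        rw [B5]
        exact mul_le_mul_of_nonneg_right (by linarith) (by positivity)

end

end Pool.Agent.N300.QU
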